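import Pool.Agent.Helper67.KPG.St2

/-! Module OPP of project KP. -/

set_option autoImplicit false

namespace Pool.Agent.Helper24.KPG

open Pool.Agent.Helper67.NO Pool.Agent.Helper52.KP Pool.Agent.Helper67.KPG

universe u

theorem hOPP : StBAS.{u} → StGPF.{u} → StOPP.{u} := by
  intro hB hG g _ _ _ e h f N pr hS w hw hy0 hk y hy
  obtain ⟨y0, hy0, hwy⟩ := hy0
  have F := hB g e h f N pr hS
  have G := hG g
  have hstab : ∀ x ∈ (ge pr 2).map w, ⁅h, x⁆ ∈ (ge pr 2).map w := by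
    intro x hx
    obtain ⟨z, hz, rfl⟩ := Submodule.mem_map.mp hx
    refine Submodule.mem_map.mpr ⟨⁅y0, z⁆, ?_, ?_⟩
    · have h1 := F.brge 0 2 y0 z hy0 hz
      simpa using h1
    · rw [G.lie ⊤ w hw, hwy]
  rw [mem_ge]
  intro i hi
  have h1 : pr i (w y) ∈ (ge pr 2).map w :=
    F.stab _ hstab (w y) (Submodule.mem_map.mpr ⟨y, hy, rfl⟩) i
  obtain ⟨z, hz, hzw⟩ := Submodule.mem_map.mp h1
  have h2 : w z ∈ le pr 1 := by
    rw [hzw]
    exact F.prle i 1 (w y) (by omega)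
  have h3 : z = 0 := hk z hz h2
  rw [← hzw, h3, map_zero]

end Pool.Agent.Helper24.KPG
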